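import Pool.Agent.H81.FB.Block

set_option autoImplicit false

/-!
# Infinite orbits of persistent automorphisms
-/

open FirstOrder FirstOrder.Language Cardinal

namespace Pool.Agent.H81.FC

universe w

open Pool.Agent.H85.AECT Pool.Agent.H85.AECT.AEC Pool.Agent.H81.FB

variable {L : FirstOrder.Language.{w, w}} {K : AEC L}

/-- The automorphisms of `C` over `A` can be coloured with fewer than `μ` colours such that for
every `c` in `C` there are only finitely many elements `g⁻¹ (g' c)` with `g`, `g'` of the same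
colour. -/
def UpToFinite {N : Type w} [L.Structure N] (C : L.Substructure N) (A : Set N)
    (μ : Cardinal.{w}) : Prop :=
  ∃ (Y : Type w) (ρ : Auts C A → Y), #Y < μ ∧
    ∀ c : C, {d : C | ∃ g g', ρ g = ρ g' ∧ g.1.symm (g'.1 c) = d}.Finite

/-- `FewUpToFinite K κ χ μ`: for all strong substructures `M` of `N` of size at most `χ` and every
`a` in `N` there is a set `X` of fewer than `κ` elements of the closure `C` of `M ∪ {a}` such that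
`C` has fewer than `μ` automorphisms over `M ∪ {a} ∪ X` up to finite orbits (`UpToFinite`). -/
def FewUpToFinite (K : AEC L) (κ χ μ : Cardinal.{w}) : Prop :=
  ∀ (N : Type w) [L.Structure N] (M : L.Substructure N) (a : N), K.Strong N M → #M ≤ χ →
    ∃ X : Set N, X ⊆ K.cl (insert a (M : Set N)) ∧ #X < κ ∧
      UpToFinite (K.cl (insert a (M : Set N))) (insert a (M : Set N) ∪ X) μ

section context

variable {M N₁ N₂ : Type w} [L.Structure M] [L.Structure N₁] [L.Structure N₂]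
  {f₁ : M ↪[L] N₁} {a₁ : N₁} {f₂ : M ↪[L] N₂} {a₂ : N₂} {χ θ : Cardinal.{w}}

theorem upToFinite_at {κ μ : Cardinal.{w}} (h : FewUpToFinite K κ χ μ) (hf₁ : K.StrongEmb f₁)
    {Q : L.Substructure M} (hQ : K.Strong M Q) (hQc : #Q ≤ χ) :
    ∃ X : Set N₁, X ⊆ K.clOver f₁ a₁ Q ∧ #X < κ ∧
      ∃ (Y : Type w) (ρ : Auts (K.clOver f₁ a₁ Q) (insert a₁ (f₁ '' (Q : Set M)) ∪ X) → Y),
        #Y < μ ∧ ∀ c : K.clOver f₁ a₁ Q,
          {d : K.clOver f₁ a₁ Q | ∃ g g', ρ g = ρ g' ∧ g.1.symm (g'.1 c) = d}.Finite :=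
  h N₁ (Q.map f₁.toHom) a₁ (hf₁.map hQ) (mk_map_le f₁ hQc)

theorem symm_comp_val {Q R : L.Substructure M} (hQR : Q ≤ R)
    {e₂ e₃ : K.clOver f₁ a₁ Q ≃[L] K.clOver f₂ a₂ Q}
    {u₂ u₃ : K.clOver f₁ a₁ R ≃[L] K.clOver f₂ a₂ R}
    (h₂ : Extends e₂ u₂) (h₃ : Extends e₃ u₃) (x : K.clOver f₁ a₁ Q) (y : K.clOver f₁ a₁ R)
    (hxy : (x : N₁) = y) : ((e₂.symm (e₃ x) : K.clOver f₁ a₁ Q) : N₁) = u₂.symm (u₃ y) := by
  have h4 : (e₃ x : N₂) = u₃ y := h₃ x y hxy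
  have hz : ((e₂.symm (e₃ x) : K.clOver f₁ a₁ Q) : N₁) ∈ K.clOver f₁ a₁ R :=
    clOver_mono hQR (e₂.symm (e₃ x)).2
  have h5 := h₂ (e₂.symm (e₃ x)) ⟨_, hz⟩ rfl
  rw [Language.Equiv.apply_symm_apply, h4] at h5
  have h6 : u₃ y = u₂ ⟨_, hz⟩ := Subtype.ext h5
  rw [h6, Language.Equiv.symm_apply_apply]

/-- Automorphisms preserve the closures over smaller models. -/
theorem symm_mem (hK : K.HasClosures) (hAP : K.Amalgamation)
    (hf₁ : K.StrongEmb f₁) (hf₂ : K.StrongEmb f₂) {P Q : L.Substructure M}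
    (hP : K.Strong M P) (hQ : K.Strong M Q) (hPQ : P ≤ Q)
    {e e' : K.clOver f₁ a₁ Q ≃[L] K.clOver f₂ a₂ Q}
    (he : e ∈ K.Isos f₁ a₁ f₂ a₂ Q) (he' : e' ∈ K.Isos f₁ a₁ f₂ a₂ Q)
    (x : K.clOver f₁ a₁ Q) (hx : (x : N₁) ∈ K.clOver f₁ a₁ P) :
    ((e.symm (e' x) : K.clOver f₁ a₁ Q) : N₁) ∈ K.clOver f₁ a₁ P := by
  obtain ⟨r, _, hr⟩ := isos_restrict hK hAP hf₁ hf₂ hP hQ hPQ he
  obtain ⟨r', _, hr'⟩ := isos_restrict hK hAP hf₁ hf₂ hP hQ hPQ he'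
  rw [← symm_comp_val hPQ (e₂ := r) (e₃ := r') hr hr' ⟨x, hx⟩ x rfl]
  exact (r.symm (r' ⟨x, hx⟩)).2

variable (K f₁ a₁ f₂ a₂ χ θ) in
/-- Above every small model some element has infinitely many images. -/
def BadC : Prop :=
  ∀ Q₀ : K.Sml M χ, ∃ Q : K.Sml M χ, Q₀.1 ≤ Q.1 ∧ ∃ x : K.clOver f₁ a₁ Q.1,
    {z : N₁ | ∃ e ∈ Pers (f₁ := f₁) (a₁ := a₁) (f₂ := f₂) (a₂ := a₂) θ Q,
      ∃ e' ∈ Pers (f₁ := f₁) (a₁ := a₁) (f₂ := f₂) (a₂ := a₂) θ Q,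
        (∀ y : K.clOver f₁ a₁ Q.1, (y : N₁) ∈ K.clOver f₁ a₁ Q₀.1 → e y = e' y) ∧
        ((e.symm (e' x) : K.clOver f₁ a₁ Q.1) : N₁) = z}.Infinite

/-- The conclusion of the chain construction. -/
structure BlockC (Q₀ Q : K.Sml M χ) where
  /-- the chain -/
  P : χ.ord.ToType → K.Sml M χ
  /-- the elements which are moved -/
  x : χ.ord.ToType → K.clOver f₁ a₁ Q.1
  le : Q₀.1 ≤ Q.1
  le_P : ∀ i, Q₀.1 ≤ (P i).1
  P_le : ∀ i, (P i).1 ≤ Q.1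
  mono : ∀ i j, i ≤ j → (P i).1 ≤ (P j).1
  cover : ∀ x ∈ K.clOver f₁ a₁ Q.1, ∃ i, x ∈ K.clOver f₁ a₁ (P i).1
  xmem : ∀ i j, i < j → (x i : N₁) ∈ K.clOver f₁ a₁ (P j).1
  move : ∀ i, ∀ F : Set N₁, F.Finite →
    ∃ E ∈ Pers (f₁ := f₁) (a₁ := a₁) (f₂ := f₂) (a₂ := a₂) θ Q,
    ∃ E' ∈ Pers (f₁ := f₁) (a₁ := a₁) (f₂ := f₂) (a₂ := a₂) θ Q,
      (∀ y : K.clOver f₁ a₁ Q.1, (y : N₁) ∈ K.clOver f₁ a₁ (P i).1 → E' y = E y) ∧
      ((E.symm (E' (x i)) : K.clOver f₁ a₁ Q.1) : N₁) ∉ F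

theorem exists_blockC (hK : K.HasClosures) (hAP : K.Amalgamation) (hLS : K.LS ≤ χ) (hχθ : χ ≤ θ)
    (hf₁ : K.StrongEmb f₁) (hf₂ : K.StrongEmb f₂)
    (hcard : ∀ Q : K.Sml M χ, #(K.Isos f₁ a₁ f₂ a₂ Q.1) ≤ θ)
    (hbad : BadC K f₁ a₁ f₂ a₂ χ θ) (Q₀ : K.Sml M χ) :
    ∃ Q : K.Sml M χ, Nonempty
      (BlockC (f₁ := f₁) (a₁ := a₁) (f₂ := f₂) (a₂ := a₂) (θ := θ) Q₀ Q) := by
  classical
  have hM : K.Mem M := hf₁.mem_left
  have hχ : ℵ₀ ≤ χ := (ls_spec (K := K)).1.trans hLS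
  choose B hB xx hinf using hbad
  have hUB : ∀ S : Set (K.Sml M χ), ∃ R : K.Sml M χ, #S ≤ χ → ∀ Q ∈ S, Q.1 ≤ R.1 := by
    intro S
    by_cases hS : #S ≤ χ
    · obtain ⟨R, hR, _⟩ := exists_ub hM hLS S hS ∅ (by simp)
      exact ⟨R, fun _ => hR⟩
    · obtain ⟨R, _, _⟩ := exists_ub hM hLS (∅ : Set (K.Sml M χ)) (by simp) ∅ (by simp)
      exact ⟨R, fun h => absurd h hS⟩
  choose UB hUB using hUB
  let step : (i : χ.ord.ToType) → ((j : χ.ord.ToType) → j < i → K.Sml M χ) → K.Sml M χ :=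
    fun i g => UB (insert Q₀ (Set.range fun j : Set.Iio i => B (g j.1 j.2)))
  let P : χ.ord.ToType → K.Sml M χ := WellFounded.fix (wellFounded_lt) step
  have hP : ∀ i, P i = UB (insert Q₀ (Set.range fun j : Set.Iio i => B (P j.1))) := fun i =>
    WellFounded.fix_eq (wellFounded_lt) step i
  have hsmall : ∀ i : χ.ord.ToType,
      #(insert Q₀ (Set.range fun j : Set.Iio i => B (P j.1)) : Set (K.Sml M χ)) ≤ χ := by
    intro i
    have h1 : #(Set.Iio i) < χ := by simpa using Cardinal.mk_Iio_lt i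
    refine Cardinal.mk_insert_le.trans ?_
    exact (add_le_add (Cardinal.mk_range_le.trans h1.le)
      (Cardinal.one_le_aleph0.trans hχ)).trans (Cardinal.add_eq_self hχ).le
  have hPle : ∀ i j : χ.ord.ToType, j < i → (B (P j)).1 ≤ (P i).1 := by
    intro i j hji
    rw [hP i]
    exact hUB _ (hsmall i) _ (Set.mem_insert_of_mem _ ⟨⟨j, hji⟩, rfl⟩)
  have hP0 : ∀ i : χ.ord.ToType, Q₀.1 ≤ (P i).1 := by
    intro i
    rw [hP i]
    exact hUB _ (hsmall i) _ (Set.mem_insert _ _)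
  have hPmono : ∀ i j : χ.ord.ToType, i ≤ j → (P i).1 ≤ (P j).1 := by
    intro i j hij
    rcases hij.eq_or_lt with rfl | h
    · exact le_rfl
    · exact (hB (P i)).trans (hPle j i h)
  have hnm : NoMaxOrder χ.ord.ToType := Cardinal.noMaxOrder hχ
  let C : Set (L.Substructure M) := Set.range fun i => (P i).1
  have hne' : Nonempty χ.ord.ToType := by
    obtain ⟨i, _⟩ := exists_index (κ := χ) (ν := 0) (Cardinal.aleph0_pos.trans_le hχ)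
    exact ⟨i⟩
  have hCne : C.Nonempty := Set.range_nonempty _
  have hCch : IsChain (· ≤ ·) C := by
    rintro _ ⟨i, rfl⟩ _ ⟨j, rfl⟩ _
    rcases le_total i j with h | h
    · exact Or.inl (hPmono _ _ h)
    · exact Or.inr (hPmono _ _ h)
  have hCs : K.Strong M (sSup C) := by
    apply K.smooth M C hCne hCch
    rintro _ ⟨i, rfl⟩
    exact (P i).2.1
  have hCc : #(sSup C : L.Substructure M) ≤ χ := by
    have h1 : ((sSup C : L.Substructure M) : Set M) ⊆ ⋃ i : χ.ord.ToType, ((P i).1 : Set M) := by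
      intro x hx
      have hx' : x ∈ sSup C := hx
      rw [Substructure.mem_sSup_of_directedOn hCne hCch.directedOn] at hx'
      obtain ⟨_, ⟨i, rfl⟩, hxi⟩ := hx'
      exact Set.mem_iUnion.mpr ⟨i, hxi⟩
    refine (Cardinal.mk_le_mk_of_subset h1).trans ?_
    apply mk_union_le_of hχ
    · simp
    · intro i
      exact (P i).2.2
  let Qs : K.Sml M χ := ⟨sSup C, hCs, hCc⟩
  have hPQ : ∀ i, (P i).1 ≤ Qs.1 := fun i => le_sSup ⟨i, rfl⟩
  have hBQ : ∀ i, (B (P i)).1 ≤ Qs.1 := by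
    intro i
    obtain ⟨j, hj⟩ := exists_gt i
    exact (hPle j i hj).trans (hPQ j)
  refine ⟨Qs, ⟨⟨P, fun i => ⟨(xx (P i)).1, clOver_mono (hBQ i) (xx (P i)).2⟩,
    (hP0 (Classical.arbitrary _)).trans (hPQ _), hP0, hPQ, hPmono, ?_, ?_, ?_⟩⟩⟩
  · intro x hx
    obtain ⟨_, ⟨i, rfl⟩, hi⟩ := exists_mem_clOver_of_chain hK hf₁ C hCne hCch
      (by rintro _ ⟨i, rfl⟩; exact (P i).2.1) hx
    exact ⟨i, hi⟩
  · intro i j hij
    exact clOver_mono (hPle j i hij) (xx (P i)).2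
  · intro i F hF
    obtain ⟨z, ⟨e, he, e', he', hag, hz⟩, hzF⟩ := (hinf (P i)).exists_notMem_finite hF
    obtain ⟨E, hE, hEx⟩ := pers_extend hK hAP hLS hχθ hf₁ hf₂ (hBQ i) (hcard Qs) he
    obtain ⟨E', hE', hEx'⟩ := pers_extend hK hAP hLS hχθ hf₁ hf₂ (hBQ i) (hcard Qs) he'
    refine ⟨E, hE, E', hE', ?_, ?_⟩
    · intro y hy
      have hyB : (y : N₁) ∈ K.clOver f₁ a₁ (B (P i)).1 := clOver_mono (hB (P i)) hy
      apply Subtype.ext
      rw [← hEx ⟨y, hyB⟩ y rfl, ← hEx' ⟨y, hyB⟩ y rfl, hag ⟨y, hyB⟩ hy]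
    · rw [← symm_comp_val (hBQ i) hEx hEx' (xx (P i)) _ rfl, hz]
      exact hzF

/-- The case of fewer than `cf χ` elements and fewer than `χ` colours. -/
theorem not_badC_of_over (hK : K.HasClosures) (hAP : K.Amalgamation) (hLS : K.LS ≤ χ)
    (hχθ : χ ≤ θ) (hf₁ : K.StrongEmb f₁) (hf₂ : K.StrongEmb f₂)
    (hcard : ∀ Q : K.Sml M χ, #(K.Isos f₁ a₁ f₂ a₂ Q.1) ≤ θ)
    (hover : FewUpToFinite K χ.ord.cof χ χ) : ¬ BadC K f₁ a₁ f₂ a₂ χ θ := by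
  classical
  intro hbad
  have hM : K.Mem M := hf₁.mem_left
  have hχ : ℵ₀ ≤ χ := (ls_spec (K := K)).1.trans hLS
  obtain ⟨Q₀, _, _⟩ := exists_ub hM hLS (∅ : Set (K.Sml M χ)) (by simp) ∅ (by simp)
  obtain ⟨Q, ⟨D⟩⟩ := exists_blockC hK hAP hLS hχθ hf₁ hf₂ hcard hbad Q₀
  obtain ⟨X, hX, hXc, Y, ρ, hY, hfin⟩ := upToFinite_at (a₁ := a₁) hover hf₁ Q.2.1 Q.2.2
  have h1 : ∀ x : X, ∃ i : χ.ord.ToType, (x : N₁) ∈ K.clOver f₁ a₁ (D.P i).1 := fun x =>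
    D.cover x.1 (hX x.2)
  choose idx hidx using h1
  obtain ⟨b, hb⟩ := exists_bound_of_lt_cof (Set.range idx) (Cardinal.mk_range_le.trans_lt hXc)
  have hXb : X ⊆ K.clOver f₁ a₁ (D.P b).1 := by
    intro x hx
    exact clOver_mono (D.mono _ _ (hb _ ⟨⟨x, hx⟩, rfl⟩).le) (hidx ⟨x, hx⟩)
  choose E hE E' hE' hfix hmv using fun i => D.move i
    ((fun d : K.clOver f₁ a₁ Q.1 => (d : N₁)) ''
      {d : K.clOver f₁ a₁ Q.1 | ∃ g g', ρ g = ρ g' ∧ g.1.symm (g'.1 (D.x i)) = d})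
    ((hfin (D.x i)).image _)
  have hg : ∀ j : Set.Ici b, (E j.1).symm.comp (E' j.1) ∈
      Auts (K.clOver f₁ a₁ Q.1) (insert a₁ (f₁ '' (Q.1 : Set M)) ∪ X) := by
    intro j
    apply comp_mem_auts (hE j.1).1 (hE' j.1).1
    intro x hx
    exact hfix j.1 x (clOver_mono (D.mono _ _ j.2) (hXb hx))
  have hne : ∀ i j : Set.Ici b, i.1 < j.1 →
      ρ ⟨(E j.1).symm.comp (E' j.1), hg j⟩ ≠ ρ ⟨(E i.1).symm.comp (E' i.1), hg i⟩ := by
    intro i j hij heq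
    apply hmv i.1
    refine ⟨_, ⟨_, _, heq, rfl⟩, ?_⟩
    -- `g_j⁻¹ (g_i x) = g_i x`
    have hz : (((E i.1).symm (E' i.1 (D.x i.1)) : K.clOver f₁ a₁ Q.1) : N₁) ∈
        K.clOver f₁ a₁ (D.P j.1).1 :=
      symm_mem hK hAP hf₁ hf₂ (D.P j.1).2.1 Q.2.1 (D.P_le j.1) (hE i.1).1 (hE' i.1).1 _
        (D.xmem i.1 j.1 hij)
    have h2 := hfix j.1 _ hz
    have h3 : ((E j.1).symm.comp (E' j.1)) ((E i.1).symm (E' i.1 (D.x i.1))) =
        (E i.1).symm (E' i.1 (D.x i.1)) := by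
      show (E j.1).symm (E' j.1 _) = _
      rw [h2, Language.Equiv.symm_apply_apply]
    have h4 : ((E j.1).symm.comp (E' j.1)).symm ((E i.1).symm (E' i.1 (D.x i.1))) =
        (E i.1).symm (E' i.1 (D.x i.1)) := by
      conv_lhs => rw [← h3]
      rw [Language.Equiv.symm_apply_apply]
    exact congrArg (fun d : K.clOver f₁ a₁ Q.1 => (d : N₁)) h4
  have hinj : Function.Injective fun j : Set.Ici b => ρ ⟨(E j.1).symm.comp (E' j.1), hg j⟩ := by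
    intro i j hij
    rcases lt_trichotomy i.1 j.1 with h | h | h
    · exact absurd hij.symm (hne i j h)
    · exact Subtype.ext h
    · exact absurd hij (hne j i h)
  have h3 : #(Set.Ici b) < χ := (Cardinal.mk_le_of_injective hinj).trans_lt hY
  have h4 : #(Set.Iio b) < χ := by simpa using Cardinal.mk_Iio_lt b
  have h5 : χ ≤ #(Set.Iio b) + #(Set.Ici b) := by
    have h6 : #(Set.univ : Set χ.ord.ToType) = χ := by simp
    rw [← Set.Iio_union_Ici (a := b)] at h6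
    exact h6.symm.le.trans (Cardinal.mk_union_le _ _)
  exact absurd h5 (not_le.mpr (Cardinal.add_lt_of_lt hχ h4 h3))

end context

end Pool.Agent.H81.FC
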