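import Pool.Agent.H81.FC.Omega

set_option autoImplicit false

/-!
# The compactness argument
-/

open FirstOrder FirstOrder.Language Cardinal

namespace Pool.Agent.H81.FC

universe w

open Pool.Agent.H85.AECT Pool.Agent.H85.AECT.AEC Pool.Agent.H81.FB

variable {L : FirstOrder.Language.{w, w}} {K : AEC L}

section context

variable {M N₁ N₂ : Type w} [L.Structure M] [L.Structure N₁] [L.Structure N₂]
  {f₁ : M ↪[L] N₁} {a₁ : N₁} {f₂ : M ↪[L] N₂} {a₂ : N₂} {χ θ : Cardinal.{w}}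

/-- A function on the closure over `M` whose finite restrictions are given by isomorphisms of the
closures over all small models above `Q₀`, with finite sets of preimages, is an isomorphism. -/
theorem iso_top (hK : K.HasClosures) (hLS : K.LS ≤ χ)
    (hf₁ : K.StrongEmb f₁) (hf₂ : K.StrongEmb f₂) (Q₀ : K.Sml M χ)
    (A : (Q : K.Sml M χ) → Set (K.clOver f₁ a₁ Q.1 ≃[L] K.clOver f₂ a₂ Q.1))
    (hA : ∀ Q : K.Sml M χ, Q₀.1 ≤ Q.1 → A Q ⊆ K.Isos f₁ a₁ f₂ a₂ Q.1)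
    (F : K.clOver f₁ a₁ (⊤ : L.Substructure M) → N₂)
    (hF : ∀ (s : Finset (K.clOver f₁ a₁ (⊤ : L.Substructure M))) (Q : K.Sml M χ), Q₀.1 ≤ Q.1 →
      (∀ x ∈ s, (x : N₁) ∈ K.clOver f₁ a₁ Q.1) →
      ∃ e ∈ A Q, ∀ x ∈ s, ∀ y : K.clOver f₁ a₁ Q.1, (y : N₁) = x → (e y : N₂) = F x)
    (hpre : ∀ Q : K.Sml M χ, Q₀.1 ≤ Q.1 → ∀ y : K.clOver f₂ a₂ Q.1,
      {c : K.clOver f₁ a₁ Q.1 | ∃ e ∈ A Q, e c = y}.Finite) :
    (K.Isos f₁ a₁ f₂ a₂ (⊤ : L.Substructure M)).Nonempty := by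
  classical
  have hM : K.Mem M := hf₁.mem_left
  have hχ : ℵ₀ ≤ χ := (ls_spec (K := K)).1.trans hLS
  have hcov : ∀ s : Finset (K.clOver f₁ a₁ (⊤ : L.Substructure M)),
      ∃ R : K.Sml M χ, Q₀.1 ≤ R.1 ∧ ∀ x ∈ s, (x : N₁) ∈ K.clOver f₁ a₁ R.1 := fun s =>
    exists_small_of_finite hK hLS hf₁ Q₀ s
  have hmem : ∀ x, F x ∈ K.clOver f₂ a₂ (⊤ : L.Substructure M) := by
    intro x
    obtain ⟨R, hR, hs⟩ := hcov {x}
    obtain ⟨e, _, he⟩ := hF {x} R hR hs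
    rw [← he x (Finset.mem_singleton_self x) ⟨x, hs x (Finset.mem_singleton_self x)⟩ rfl]
    exact clOver_mono le_top (e _).2
  let φ : K.clOver f₁ a₁ (⊤ : L.Substructure M) → K.clOver f₂ a₂ (⊤ : L.Substructure M) :=
    fun x => ⟨F x, hmem x⟩
  have hinj : Function.Injective φ := by
    intro x y hxy
    have hxy' : F x = F y := congrArg Subtype.val hxy
    obtain ⟨R, hR, hs⟩ := hcov {x, y}
    obtain ⟨e, _, he⟩ := hF {x, y} R hR hs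
    have h1 := he x (by simp) ⟨x, hs x (by simp)⟩ rfl
    have h2 := he y (by simp) ⟨y, hs y (by simp)⟩ rfl
    have h3 : e ⟨x, hs x (by simp)⟩ = e ⟨y, hs y (by simp)⟩ :=
      Subtype.ext (by rw [h1, h2, hxy'])
    have h4 := e.injective h3
    exact Subtype.ext (congrArg (fun z : K.clOver f₁ a₁ R.1 => (z : N₁)) h4)
  have hsurj : Function.Surjective φ := by
    intro y
    obtain ⟨R, hR, hyR⟩ := exists_small_of_finite (f₁ := f₂) (a₁ := a₂) hK hLS hf₂ Q₀ {y}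
    have hy : (y : N₂) ∈ K.clOver f₂ a₂ R.1 := hyR y (Finset.mem_singleton_self y)
    have hfin := hpre R hR ⟨y, hy⟩
    let incl : K.clOver f₁ a₁ R.1 → K.clOver f₁ a₁ (⊤ : L.Substructure M) :=
      fun c => ⟨c, clOver_mono le_top c.2⟩
    let s : Finset (K.clOver f₁ a₁ (⊤ : L.Substructure M)) := hfin.toFinset.image incl
    have hs : ∀ x ∈ s, (x : N₁) ∈ K.clOver f₁ a₁ R.1 := by
      intro x hx
      obtain ⟨c, _, rfl⟩ := Finset.mem_image.mp hx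
      exact c.2
    obtain ⟨e, he, hes⟩ := hF s R hR hs
    refine ⟨incl (e.symm ⟨y, hy⟩), ?_⟩
    have hmem' : incl (e.symm ⟨y, hy⟩) ∈ s := by
      apply Finset.mem_image_of_mem
      rw [Set.Finite.mem_toFinset]
      exact ⟨e, he, by simp⟩
    have h1 := hes _ hmem' (e.symm ⟨y, hy⟩) rfl
    apply Subtype.ext
    show F (incl (e.symm ⟨y, hy⟩)) = y
    rw [← h1, Language.Equiv.apply_symm_apply]
  refine ⟨⟨_root_.Equiv.ofBijective φ ⟨hinj, hsurj⟩, ?_, ?_⟩, ?_, ?_⟩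
  · intro n G x
    let s : Finset (K.clOver f₁ a₁ (⊤ : L.Substructure M)) :=
      insert (Structure.funMap G x) (Finset.univ.image x)
    obtain ⟨R, hR, hs⟩ := hcov s
    obtain ⟨e, _, he⟩ := hF s R hR hs
    have hx : ∀ i, x i ∈ s := fun i =>
      Finset.mem_insert_of_mem (Finset.mem_image_of_mem _ (Finset.mem_univ i))
    let y : Fin n → K.clOver f₁ a₁ R.1 := fun i => ⟨x i, hs _ (hx i)⟩
    have h1 : ((Structure.funMap G y : K.clOver f₁ a₁ R.1) : N₁) =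
        ((Structure.funMap G x : K.clOver f₁ a₁ (⊤ : L.Substructure M)) : N₁) := rfl
    have h2 := he _ (Finset.mem_insert_self _ _) (Structure.funMap G y) h1
    have h3 : e (Structure.funMap G y) = Structure.funMap G (e ∘ y) := e.map_fun G y
    apply Subtype.ext
    show F (Structure.funMap G x) = _
    rw [← h2, h3]
    show Structure.funMap G (fun i => ((e (y i) : K.clOver f₂ a₂ R.1) : N₂)) =
      Structure.funMap G (fun i => F (x i))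
    congr 1
    funext i
    exact he _ (hx i) (y i) rfl
  · intro n G x
    let s : Finset (K.clOver f₁ a₁ (⊤ : L.Substructure M)) := Finset.univ.image x
    obtain ⟨R, hR, hs⟩ := hcov s
    obtain ⟨e, _, he⟩ := hF s R hR hs
    have hx : ∀ i, x i ∈ s := fun i => Finset.mem_image_of_mem _ (Finset.mem_univ i)
    let y : Fin n → K.clOver f₁ a₁ R.1 := fun i => ⟨x i, hs _ (hx i)⟩
    have h3 : Structure.RelMap G (e ∘ y) ↔ Structure.RelMap G y := e.map_rel G y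
    have h4 : (fun i => ((e (y i) : K.clOver f₂ a₂ R.1) : N₂)) = fun i => F (x i) := by
      funext i
      exact he _ (hx i) (y i) rfl
    have h5 : Structure.RelMap G (fun i => ((e (y i) : K.clOver f₂ a₂ R.1) : N₂)) ↔
        Structure.RelMap G (fun i => (x i : N₁)) := h3
    rw [h4] at h5
    exact h5
  · intro m _ x hx
    obtain ⟨R₀, hQR₀, hmR₀⟩ := exists_ub hM hLS {Q₀}
      (by rw [Cardinal.mk_singleton]; exact Cardinal.one_le_aleph0.trans hχ) {m}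
      (by rw [Cardinal.mk_singleton]; exact Cardinal.one_le_aleph0.trans hχ)
    obtain ⟨R₁, hR₁, hs⟩ := hcov {x}
    obtain ⟨R, hR₀R, hR₁R⟩ := exists_ub_two hM hLS R₀ R₁
    have hQR : Q₀.1 ≤ R.1 := hR₁.trans hR₁R
    have hxR : (x : N₁) ∈ K.clOver f₁ a₁ R.1 :=
      clOver_mono hR₁R (hs x (Finset.mem_singleton_self x))
    obtain ⟨e, he', he⟩ := hF {x} R hQR (by
      intro y hy
      rw [Finset.mem_singleton] at hy
      rw [hy]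
      exact hxR)
    have h1 := he x (Finset.mem_singleton_self x) ⟨x, hxR⟩ rfl
    have h2 := (hA R hQR he').1 m (hR₀R (hmR₀ rfl)) ⟨x, hxR⟩ hx
    show F x = f₂ m
    rw [← h1, h2]
  · intro x hx
    obtain ⟨R, hR, hs⟩ := hcov {x}
    obtain ⟨e, he', he⟩ := hF {x} R hR hs
    have h1 := he x (Finset.mem_singleton_self x) ⟨x, hs x (Finset.mem_singleton_self x)⟩ rfl
    have h2 := (hA R hR he').2 ⟨x, hs x (Finset.mem_singleton_self x)⟩ hx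
    show F x = a₂
    rw [← h1, h2]

theorem sameType_of_not_badC (hK : K.HasClosures) (hAP : K.Amalgamation) (hLS : K.LS ≤ χ)
    (hχθ : χ ≤ θ) (hf₁ : K.StrongEmb f₁) (hf₂ : K.StrongEmb f₂)
    (hcard : ∀ Q : K.Sml M χ, #(K.Isos f₁ a₁ f₂ a₂ Q.1) ≤ θ)
    (hpers : ∀ Q : K.Sml M χ,
      (Pers (f₁ := f₁) (a₁ := a₁) (f₂ := f₂) (a₂ := a₂) θ Q).Nonempty)
    (hnb : ¬ BadC K f₁ a₁ f₂ a₂ χ θ) : K.SameType f₁ a₁ f₂ a₂ := by
  classical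
  have hM : K.Mem M := hf₁.mem_left
  have hQ₀ : ∃ Q₀ : K.Sml M χ, ∀ Q : K.Sml M χ, Q₀.1 ≤ Q.1 → ∀ x : K.clOver f₁ a₁ Q.1,
      {z : N₁ | ∃ e ∈ Pers (f₁ := f₁) (a₁ := a₁) (f₂ := f₂) (a₂ := a₂) θ Q,
        ∃ e' ∈ Pers (f₁ := f₁) (a₁ := a₁) (f₂ := f₂) (a₂ := a₂) θ Q,
          (∀ y : K.clOver f₁ a₁ Q.1, (y : N₁) ∈ K.clOver f₁ a₁ Q₀.1 → e y = e' y) ∧
          ((e.symm (e' x) : K.clOver f₁ a₁ Q.1) : N₁) = z}.Finite := by
    by_contra hcon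
    apply hnb
    intro Q₀
    by_contra hc
    apply hcon
    refine ⟨Q₀, fun Q hQ x => ?_⟩
    by_contra hinf
    exact hc ⟨Q, hQ, x, hinf⟩
  obtain ⟨Q₀, hfinZ⟩ := hQ₀
  obtain ⟨e₀, he₀⟩ := hpers Q₀
  let PQ : (Q : K.Sml M χ) → Set (K.clOver f₁ a₁ Q.1 ≃[L] K.clOver f₂ a₂ Q.1) := fun Q =>
    {e | e ∈ Pers θ Q ∧ Extends e₀ e}
  have hne : ∀ Q : K.Sml M χ, Q₀.1 ≤ Q.1 → ∃ e, e ∈ PQ Q := by
    intro Q hQ
    obtain ⟨e, he, hext⟩ := pers_extend hK hAP hLS hχθ hf₁ hf₂ hQ (hcard Q) he₀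
    exact ⟨e, he, hext⟩
  have hup : ∀ Q R : K.Sml M χ, Q₀.1 ≤ Q.1 → Q.1 ≤ R.1 → ∀ e ∈ PQ Q, ∃ e' ∈ PQ R,
      Extends e e' := by
    intro Q R hQ hQR e he
    obtain ⟨e', he', hext⟩ := pers_extend hK hAP hLS hχθ hf₁ hf₂ hQR (hcard R) he.1
    exact ⟨e', ⟨he', Extends.trans hQ he.2 hext⟩, hext⟩
  have hdown : ∀ Q R : K.Sml M χ, Q₀.1 ≤ Q.1 → Q.1 ≤ R.1 → ∀ e ∈ PQ R, ∃ e' ∈ PQ Q,
      Extends e' e := by
    intro Q R hQ hQR e he
    obtain ⟨e', he', hext⟩ := pers_restrict hK hAP hLS hχθ hf₁ hf₂ hQR he.1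
    exact ⟨e', ⟨he', Extends.mid hQR he.2 hext⟩, hext⟩
  have hagree : ∀ Q : K.Sml M χ, ∀ e ∈ PQ Q, ∀ e' ∈ PQ Q,
      ∀ y : K.clOver f₁ a₁ Q.1, (y : N₁) ∈ K.clOver f₁ a₁ Q₀.1 → e y = e' y := by
    intro Q e he e' he' y hy
    apply Subtype.ext
    rw [← he.2 ⟨y, hy⟩ y rfl, ← he'.2 ⟨y, hy⟩ y rfl]
  have hZ : ∀ Q : K.Sml M χ, Q₀.1 ≤ Q.1 → ∀ x : K.clOver f₁ a₁ Q.1,
      {z : K.clOver f₁ a₁ Q.1 | ∃ e ∈ PQ Q, ∃ e' ∈ PQ Q, e.symm (e' x) = z}.Finite := by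
    intro Q hQ x
    apply ((hfinZ Q hQ x).preimage Subtype.val_injective.injOn).subset
    rintro z ⟨e, he, e', he', hz⟩
    exact ⟨e, he.1, e', he'.1, hagree Q e he e' he',
      congrArg (fun d : K.clOver f₁ a₁ Q.1 => (d : N₁)) hz⟩
  have hvals : ∀ Q : K.Sml M χ, Q₀.1 ≤ Q.1 → ∀ x : K.clOver f₁ a₁ Q.1,
      {y : N₂ | ∃ e ∈ PQ Q, (e x : N₂) = y}.Finite := by
    intro Q hQ x
    obtain ⟨e, he⟩ := hne Q hQ
    apply ((hZ Q hQ x).image fun z => (e z : N₂)).subset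
    rintro y ⟨e', he', hy⟩
    refine ⟨e.symm (e' x), ⟨e, he, e', he', rfl⟩, ?_⟩
    show ((e (e.symm (e' x)) : K.clOver f₂ a₂ Q.1) : N₂) = y
    rw [Language.Equiv.apply_symm_apply, hy]
  have hpre : ∀ Q : K.Sml M χ, Q₀.1 ≤ Q.1 → ∀ y : K.clOver f₂ a₂ Q.1,
      {c : K.clOver f₁ a₁ Q.1 | ∃ e ∈ PQ Q, e c = y}.Finite := by
    intro Q hQ y
    obtain ⟨e, he⟩ := hne Q hQ
    apply (hZ Q hQ (e.symm y)).subset
    rintro c ⟨e', he', hc⟩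
    refine ⟨e', he', e, he, ?_⟩
    rw [Language.Equiv.apply_symm_apply, ← hc, Language.Equiv.symm_apply_apply]
  have hcov : ∀ s : Finset (K.clOver f₁ a₁ (⊤ : L.Substructure M)),
      ∃ R : K.Sml M χ, Q₀.1 ≤ R.1 ∧ ∀ x ∈ s, (x : N₁) ∈ K.clOver f₁ a₁ R.1 := fun s =>
    exists_small_of_finite hK hLS hf₁ Q₀ s
  choose R hR hRs using hcov
  choose eR heR using fun s => hne (R s) (hR s)
  let u : (s : Finset (K.clOver f₁ a₁ (⊤ : L.Substructure M))) → s → N₂ := fun s x =>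
    eR s ⟨x.1, hRs s x.1 x.2⟩
  let V : K.clOver f₁ a₁ (⊤ : L.Substructure M) → Set N₂ := fun x =>
    {y | ∃ Q : K.Sml M χ, Q₀.1 ≤ Q.1 ∧ ∃ hx : (x : N₁) ∈ K.clOver f₁ a₁ Q.1,
      ∃ e ∈ PQ Q, (e ⟨x, hx⟩ : N₂) = y}
  have hV : ∀ x, Finite (V x) := by
    intro x
    apply Set.Finite.to_subtype
    have hx : (x : N₁) ∈ K.clOver f₁ a₁ (R {x}).1 := hRs {x} x (Finset.mem_singleton_self x)
    apply (hvals (R {x}) (hR {x}) ⟨x, hx⟩).subset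
    rintro y ⟨Q, hQ, hxQ, e, he, hy⟩
    obtain ⟨S, hQS, hRS⟩ := exists_ub_two hM hLS Q (R {x})
    obtain ⟨e', he', hext⟩ := hup Q S hQ hQS e he
    obtain ⟨e'', he'', hext'⟩ := hdown (R {x}) S (hR {x}) hRS e' he'
    refine ⟨e'', he'', ?_⟩
    have hxS : (x : N₁) ∈ K.clOver f₁ a₁ S.1 := clOver_mono hQS hxQ
    rw [hext' ⟨x, hx⟩ ⟨x, hxS⟩ rfl, ← hext ⟨x, hxQ⟩ ⟨x, hxS⟩ rfl, hy]
  have huV : ∀ (s : Finset (K.clOver f₁ a₁ (⊤ : L.Substructure M))) (x : s), u s x ∈ V x.1 :=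
    fun s x => ⟨R s, hR s, hRs s x.1 x.2, eR s, heR s, rfl⟩
  obtain ⟨F, hF⟩ := Finset.rado_selection_subtype
    (β := fun x : K.clOver f₁ a₁ (⊤ : L.Substructure M) => V x)
    (fun s x => ⟨u s x, huV s x⟩)
  obtain ⟨v, hv⟩ := iso_top (f₂ := f₂) (a₂ := a₂) hK hLS hf₁ hf₂ Q₀ PQ
    (fun Q _ e he => he.1.1) (fun x => (F x : N₂)) (by
      intro s Q hQ hs
      obtain ⟨t, hst, ht⟩ := hF s
      obtain ⟨S, hRS, hQS⟩ := exists_ub_two hM hLS (R t) Q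
      obtain ⟨e', he', hext⟩ := hup (R t) S (hR t) hRS (eR t) (heR t)
      obtain ⟨e'', he'', hext'⟩ := hdown Q S hQ hQS e' he'
      refine ⟨e'', he'', ?_⟩
      intro x hx y hy
      have hxQ : (x : N₁) ∈ K.clOver f₁ a₁ Q.1 := hs x hx
      have hxS : (x : N₁) ∈ K.clOver f₁ a₁ S.1 := clOver_mono hQS hxQ
      rw [hext' y ⟨x, hxS⟩ hy, ← hext ⟨x, hRs t x (hst hx)⟩ ⟨x, hxS⟩ rfl]
      have h3 := ht ⟨x, hx⟩
      have h4 := congrArg Subtype.val h3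
      exact h4.symm) hpre
  exact sameType_of_isos hK hAP hf₁ hf₂ hv

end context

/-- **Main theorem.** -/
theorem tame_of_boundC (hK : K.HasClosures) (hAP : K.Amalgamation)
    {χ θ : Cardinal.{w}} (hLS : K.LS ≤ χ) (hχθ : χ ≤ θ) (hA : AutBound K χ θ)
    (hF : FewUpToFinite K ℵ₀ χ (χ ^ (ℵ₀ : Cardinal.{w})) ∨ FewUpToFinite K χ.ord.cof χ χ) :
    K.Tame θ := by
  intro M N₁ N₂ _ _ _ f₁ a₁ f₂ a₂ hf₁ hf₂ hsame
  have hcard : ∀ Q : K.Sml M χ, #(K.Isos f₁ a₁ f₂ a₂ Q.1) ≤ θ := fun Q =>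
    isos_le_of_bound hA hf₁ Q
  have hpers : ∀ Q : K.Sml M χ,
      (Pers (f₁ := f₁) (a₁ := a₁) (f₂ := f₂) (a₂ := a₂) θ Q).Nonempty := by
    intro Q
    obtain ⟨e₀, _, he₀⟩ := exists_pers hK hAP hLS hχθ hf₁ hf₂ Q (hcard Q) Set.univ (by
      intro R hR
      obtain ⟨e, he⟩ := isos_nonempty hK hf₁ hf₂ R.2.1 (hsame R.1 R.2.1 R.2.2)
      obtain ⟨e', he', hext⟩ := isos_restrict hK hAP hf₁ hf₂ Q.2.1 R.2.1 hR he
      exact ⟨e, he, e', he', trivial, hext⟩)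
    exact ⟨e₀, he₀⟩
  apply sameType_of_not_badC hK hAP hLS hχθ hf₁ hf₂ hcard hpers
  rcases hF with hF | hF
  · exact not_badC_of_few hK hAP hLS hχθ hf₁ hf₂ hcard hpers hF
  · exact not_badC_of_over hK hAP hLS hχθ hf₁ hf₂ hcard hF

end Pool.Agent.H81.FC
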