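import Pool.Agent.H81.FC.Compact
import Pool.Agent.H81.FB.Cor

set_option autoImplicit false

/-!
# Conversions between the hypotheses
-/

open FirstOrder FirstOrder.Language Cardinal

namespace Pool.Agent.H81.FC

universe w

open Pool.Agent.H85.AECT Pool.Agent.H85.AECT.AEC Pool.Agent.H81.FB

variable {L : FirstOrder.Language.{w, w}} {K : AEC L}

theorem FewUpToFinite.mono {κ χ μ μ' : Cardinal.{w}} (h : FewUpToFinite K κ χ μ) (hμ : μ ≤ μ') :
    FewUpToFinite K κ χ μ' := by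
  intro N _ M a hM hMc
  obtain ⟨X, hX, hXc, Y, ρ, hY, hf⟩ := h N M a hM hMc
  exact ⟨X, hX, hXc, Y, ρ, hY.trans_le hμ, hf⟩

theorem upToFinite_of_few {κ χ μ : Cardinal.{w}} (h : FewAuts K κ χ μ) :
    FewUpToFinite K κ χ μ := by
  intro N _ M a hM hMc
  obtain ⟨X, hX, hXc, hA⟩ := h N M a hM hMc
  refine ⟨X, hX, hXc, _, id, hA, fun c => ?_⟩
  apply (Set.finite_singleton c).subset
  rintro d ⟨g, g', hgg, hd⟩
  have h1 : g = g' := hgg
  rw [h1, Language.Equiv.symm_apply_apply] at hd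
  exact hd.symm

theorem upToFinite_of_almostRigid {κ χ μ : Cardinal.{w}} (hμ : 1 < μ)
    (h : K.AlmostRigid κ χ) : FewUpToFinite K κ χ μ := by
  intro N _ M a hM hMc
  obtain ⟨X, hX, hXc, horb⟩ := h N M a hM hMc
  refine ⟨X, hX, hXc, PUnit, fun _ => PUnit.unit, ?_, fun c => ?_⟩
  · rw [Cardinal.mk_punit]
    exact hμ
  · apply (horb c).subset
    rintro d ⟨g, g', _, hd⟩
    refine ⟨g.1.symm.comp g'.1, ?_, hd⟩
    intro x hx
    show g.1.symm (g'.1 x) = x
    have h1 : g'.1 x = g.1 x := by rw [g.2 x hx, g'.2 x hx]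
    rw [h1, Language.Equiv.symm_apply_apply]

end Pool.Agent.H81.FC
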