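import Pool.Agent.H81.FC.Block

set_option autoImplicit false

/-!
# Infinite products of persistent automorphisms, modulo finite orbits
-/

open FirstOrder FirstOrder.Language Cardinal

namespace Pool.Agent.H81.FC

universe w

open Pool.Agent.H85.AECT Pool.Agent.H85.AECT.AEC Pool.Agent.H81.FB

variable {L : FirstOrder.Language.{w, w}} {K : AEC L}

section context

variable {M N₁ N₂ : Type w} [L.Structure M] [L.Structure N₁] [L.Structure N₂]
  {f₁ : M ↪[L] N₁} {a₁ : N₁} {f₂ : M ↪[L] N₂} {a₂ : N₂} {χ θ : Cardinal.{w}}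

/-- The case of finite `X` and fewer than `χ ^ ℵ₀` colours. -/
theorem not_badC_of_few (hK : K.HasClosures) (hAP : K.Amalgamation) (hLS : K.LS ≤ χ)
    (hχθ : χ ≤ θ) (hf₁ : K.StrongEmb f₁) (hf₂ : K.StrongEmb f₂)
    (hcard : ∀ Q : K.Sml M χ, #(K.Isos f₁ a₁ f₂ a₂ Q.1) ≤ θ)
    (hpers : ∀ Q : K.Sml M χ,
      (Pers (f₁ := f₁) (a₁ := a₁) (f₂ := f₂) (a₂ := a₂) θ Q).Nonempty)
    (hfew : FewUpToFinite K ℵ₀ χ (χ ^ (ℵ₀ : Cardinal.{w}))) : ¬ BadC K f₁ a₁ f₂ a₂ χ θ := by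
  classical
  intro hbad
  have hM : K.Mem M := hf₁.mem_left
  have hχ : ℵ₀ ≤ χ := (ls_spec (K := K)).1.trans hLS
  obtain ⟨Q0, _, _⟩ := exists_ub hM hLS (∅ : Set (K.Sml M χ)) (by simp) ∅ (by simp)
  obtain ⟨e0, he0⟩ := hpers Q0
  choose nx hnx using fun Q : K.Sml M χ => exists_blockC hK hAP hLS hχθ hf₁ hf₂ hcard hbad Q
  let D : ∀ Q : K.Sml M χ, BlockC (f₁ := f₁) (a₁ := a₁) (f₂ := f₂) (a₂ := a₂) (θ := θ) Q (nx Q) :=
    fun Q => (hnx Q).some
  let Qn : ℕ → K.Sml M χ := fun n => Nat.rec Q0 (fun _ Q => nx Q) n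
  have hQle : ∀ n, (Qn n).1 ≤ (Qn (n + 1)).1 := fun n => (D (Qn n)).le
  have hQmono : ∀ i j, i ≤ j → (Qn i).1 ≤ (Qn j).1 := by
    intro i j hij
    induction j, hij using Nat.le_induction with
    | base => exact le_rfl
    | succ j _ ih => exact ih.trans (hQle j)
  let C : Set (L.Substructure M) := Set.range fun i => (Qn i).1
  have hQC : ∀ i, (Qn i).1 ≤ sSup C := fun i => le_sSup ⟨i, rfl⟩
  have hCne : C.Nonempty := Set.range_nonempty _
  have hCch : IsChain (· ≤ ·) C := by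
    rintro _ ⟨i, rfl⟩ _ ⟨j, rfl⟩ _
    rcases le_total i j with h | h
    · exact Or.inl (hQmono _ _ h)
    · exact Or.inr (hQmono _ _ h)
  have hCs : K.Strong M (sSup C) := by
    apply K.smooth M C hCne hCch
    rintro _ ⟨i, rfl⟩
    exact (Qn i).2.1
  have hCm : ∀ m ∈ sSup C, ∃ i, m ∈ (Qn i).1 := by
    intro m hm
    rw [Substructure.mem_sSup_of_directedOn hCne hCch.directedOn] at hm
    obtain ⟨_, ⟨i, rfl⟩, hi⟩ := hm
    exact ⟨i, hi⟩
  have hCc : #(sSup C : L.Substructure M) ≤ χ := by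
    have h1 : ((sSup C : L.Substructure M) : Set M) ⊆
        ⋃ i : ULift.{w} ℕ, ((Qn i.down).1 : Set M) := by
      intro x hx
      obtain ⟨i, hi⟩ := hCm x hx
      exact Set.mem_iUnion.mpr ⟨⟨i⟩, hi⟩
    refine (Cardinal.mk_le_mk_of_subset h1).trans ?_
    apply mk_union_le_of hχ
    · simpa using hχ
    · intro i
      exact (Qn i.down).2.2
  have hC₁ : ∀ x ∈ K.clOver f₁ a₁ (sSup C), ∃ i, x ∈ K.clOver f₁ a₁ (Qn i).1 := by
    intro x hx
    obtain ⟨_, ⟨i, rfl⟩, hi⟩ := exists_mem_clOver_of_chain hK hf₁ C hCne hCch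
      (by rintro _ ⟨i, rfl⟩; exact (Qn i).2.1) hx
    exact ⟨i, hi⟩
  have hC₂ : ∀ x ∈ K.clOver f₂ a₂ (sSup C), ∃ i, x ∈ K.clOver f₂ a₂ (Qn i).1 := by
    intro x hx
    obtain ⟨_, ⟨i, rfl⟩, hi⟩ := exists_mem_clOver_of_chain hK hf₂ C hCne hCch
      (by rintro _ ⟨i, rfl⟩; exact (Qn i).2.1) hx
    exact ⟨i, hi⟩
  -- the colouring
  obtain ⟨X, hX, hXc, Y, ρ, hY, hfin⟩ := upToFinite_at (a₁ := a₁) hfew hf₁ hCs hCc
  have hXN : ∃ n, X ⊆ K.clOver f₁ a₁ (Qn n).1 := by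
    have hXf : X.Finite := Cardinal.lt_aleph0_iff_set_finite.mp hXc
    have := hXf.to_subtype
    choose idx hidx using fun x : X => hC₁ x.1 (hX x.2)
    obtain ⟨n, hn⟩ := (Set.finite_range idx).bddAbove
    refine ⟨n, fun x hx => ?_⟩
    exact clOver_mono (hQmono _ _ (hn ⟨⟨x, hx⟩, rfl⟩)) (hidx ⟨x, hx⟩)
  obtain ⟨m₀, hm₀⟩ := hXN
  let xx : (n : ℕ) → χ.ord.ToType → K.clOver f₁ a₁ (sSup C) := fun n i =>
    ⟨((D (Qn n)).x i).1, clOver_mono (hQC (n + 1)) ((D (Qn n)).x i).2⟩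
  let F : ℕ → χ.ord.ToType → Set N₁ := fun n i =>
    (fun d : K.clOver f₁ a₁ (sSup C) => (d : N₁)) ''
      {d : K.clOver f₁ a₁ (sSup C) | ∃ g g', ρ g = ρ g' ∧ g.1.symm (g'.1 (xx n i)) = d}
  have hF : ∀ n i, (F n i).Finite := fun n i => (hfin (xx n i)).image _
  choose E hE E' hE' hfix hmv using fun (n : ℕ) (i : χ.ord.ToType) =>
    (D (Qn n)).move i (F n i) (hF n i)
  choose ex hexP hexE using fun (n : ℕ)
    (e : Pers (f₁ := f₁) (a₁ := a₁) (f₂ := f₂) (a₂ := a₂) θ (Qn n)) =>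
      pers_extend hK hAP hLS hχθ hf₁ hf₂ (hQle n) (hcard (Qn (n + 1))) e.2
  let st : (n : ℕ) → Pers (f₁ := f₁) (a₁ := a₁) (f₂ := f₂) (a₂ := a₂) θ (Qn n) →
      χ.ord.ToType → Pers (f₁ := f₁) (a₁ := a₁) (f₂ := f₂) (a₂ := a₂) θ (Qn (n + 1)) :=
    fun n e i => ⟨(ex n e).comp ((E n i).symm.comp (E' n i)),
      pers_comp (hexP n e) (hE n i) (hE' n i)⟩
  let T : (ℕ → χ.ord.ToType) → (n : ℕ) →
      Pers (f₁ := f₁) (a₁ := a₁) (f₂ := f₂) (a₂ := a₂) θ (Qn n) := fun η n =>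
    Nat.rec (motive := fun n => Pers (f₁ := f₁) (a₁ := a₁) (f₂ := f₂) (a₂ := a₂) θ (Qn n))
      ⟨e0, he0⟩ (fun n e => st n e (η n)) n
  have hTs : ∀ η n, T η (n + 1) = st n (T η n) (η n) := fun η n => rfl
  have hTs' : ∀ η n, (T η (n + 1)).1 =
      (ex n (T η n)).comp ((E n (η n)).symm.comp (E' n (η n))) := fun η n => rfl
  have hag : ∀ η η' : ℕ → χ.ord.ToType, ∀ n, (∀ k < n, η k = η' k) → T η n = T η' n := by
    intro η η' n
    induction n with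
    | zero => exact fun _ => rfl
    | succ n ih =>
      intro h
      rw [hTs, hTs, ih fun k hk => h k (Nat.lt_succ_of_lt hk), h n (Nat.lt_succ_self n)]
  have hstep : ∀ η n, Extends (T η n).1 (T η (n + 1)).1 := by
    intro η n x y hxy
    rw [hTs']
    have h1 : E' n (η n) y = E n (η n) y :=
      hfix n (η n) y (clOver_mono ((D (Qn n)).le_P _) (hxy ▸ x.2))
    show _ = ((ex n (T η n)) ((E n (η n)).symm (E' n (η n) y)) : N₂)
    rw [h1, Language.Equiv.symm_apply_apply]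
    exact hexE n (T η n) x y hxy
  have hcoh : ∀ η i j, i ≤ j → Extends (T η i).1 (T η j).1 := by
    intro η i j hij
    induction j, hij using Nat.le_induction with
    | base => exact Extends.rfl' _
    | succ j hij ih => exact Extends.trans (hQmono i j hij) ih (hstep η j)
  have hglue : ∀ η, ∃ u ∈ K.Isos f₁ a₁ f₂ a₂ (sSup C), ∀ i, Extends (T η i).1 u := by
    intro η
    exact glue (fun i => (Qn i).1) (sSup C) hQC hQmono hCm hC₁ hC₂ (fun i => (T η i).1)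
      (fun i => (T η i).2.1) (hcoh η)
  choose u hu hue using hglue
  have core : ∀ η η' : ℕ → χ.ord.ToType, ∀ n, (∀ k < n, η k = η' k) → η' n < η n →
      (((u η).symm (u η' (xx n (η' n))) : K.clOver f₁ a₁ (sSup C)) : N₁) ∉ F n (η' n) := by
    intro η η' n hlt hn
    have hz : (((E n (η' n)).symm (E' n (η' n) ((D (Qn n)).x (η' n))) :
        K.clOver f₁ a₁ (Qn (n + 1)).1) : N₁) ∈ K.clOver f₁ a₁ ((D (Qn n)).P (η n)).1 :=
      symm_mem hK hAP hf₁ hf₂ ((D (Qn n)).P (η n)).2.1 (Qn (n + 1)).2.1 ((D (Qn n)).P_le (η n))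
        (hE n (η' n)).1 (hE' n (η' n)).1 _ ((D (Qn n)).xmem _ _ hn)
    obtain ⟨z, hzdef⟩ : ∃ z : K.clOver f₁ a₁ (Qn (n + 1)).1,
        z = (E n (η' n)).symm (E' n (η' n) ((D (Qn n)).x (η' n))) := ⟨_, rfl⟩
    rw [← hzdef] at hz
    have hzC : (z : N₁) ∈ K.clOver f₁ a₁ (sSup C) := clOver_mono (hQC (n + 1)) z.2
    have h1 : (u η' (xx n (η' n)) : N₂) = ex n (T η' n) z := by
      rw [← hue η' (n + 1) ((D (Qn n)).x (η' n)) (xx n (η' n)) rfl, hTs', hzdef]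
      rfl
    have h2 : (u η ⟨z, hzC⟩ : N₂) = ex n (T η n) z := by
      rw [← hue η (n + 1) z ⟨z, hzC⟩ rfl, hTs']
      show ((ex n (T η n)) ((E n (η n)).symm (E' n (η n) z)) : N₂) = _
      rw [hfix n (η n) z hz, Language.Equiv.symm_apply_apply]
    have h3 : u η' (xx n (η' n)) = u η ⟨z, hzC⟩ := by
      apply Subtype.ext
      rw [h1, h2, hag η η' n hlt]
    rw [h3, Language.Equiv.symm_apply_apply]
    have h4 := hmv n (η' n)
    rw [← hzdef] at h4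
    exact h4
  -- sequences which are constant before `m₀`
  have hI : Nonempty χ.ord.ToType := by
    obtain ⟨i, _⟩ := exists_index (κ := χ) (ν := 0) (Cardinal.aleph0_pos.trans_le hχ)
    exact ⟨i⟩
  obtain ⟨i₀⟩ := hI
  let sh : (ℕ → χ.ord.ToType) → (ℕ → χ.ord.ToType) := fun ξ n => if n < m₀ then i₀ else ξ (n - m₀)
  have hsh : ∀ ξ n, n < m₀ → sh ξ n = i₀ := fun ξ n h => if_pos h
  have hsh' : ∀ ξ n, sh ξ (m₀ + n) = ξ n := by
    intro ξ n
    have h1 : ¬ m₀ + n < m₀ := by omega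
    show (if m₀ + n < m₀ then i₀ else ξ (m₀ + n - m₀)) = ξ n
    rw [if_neg h1, Nat.add_sub_cancel_left]
  let ξ₀ : ℕ → χ.ord.ToType := fun _ => i₀
  have hg : ∀ ξ, (u (sh ξ₀)).symm.comp (u (sh ξ)) ∈
      Auts (K.clOver f₁ a₁ (sSup C)) (insert a₁ (f₁ '' ((sSup C : L.Substructure M) : Set M)) ∪ X) := by
    intro ξ
    apply comp_mem_auts (hu _) (hu _)
    intro x hx
    apply Subtype.ext
    have hxm : (x : N₁) ∈ K.clOver f₁ a₁ (Qn m₀).1 := hm₀ hx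
    have h1 : T (sh ξ) m₀ = T (sh ξ₀) m₀ := by
      apply hag
      intro k hk
      rw [hsh ξ k hk, hsh ξ₀ k hk]
    rw [← hue (sh ξ) m₀ ⟨x, hxm⟩ x rfl, ← hue (sh ξ₀) m₀ ⟨x, hxm⟩ x rfl, h1]
  have hinj : Function.Injective fun ξ : ℕ → χ.ord.ToType =>
      ρ ⟨(u (sh ξ₀)).symm.comp (u (sh ξ)), hg ξ⟩ := by
    intro ξ ξ' hξ
    by_contra hne
    have hex : ∃ n, sh ξ n ≠ sh ξ' n := by
      obtain ⟨m, hm⟩ := Function.ne_iff.mp hne
      refine ⟨m₀ + m, ?_⟩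
      rw [hsh', hsh']
      exact hm
    let n := Nat.find hex
    have hn : sh ξ n ≠ sh ξ' n := Nat.find_spec hex
    have hlt : ∀ k < n, sh ξ k = sh ξ' k := by
      intro k hk
      by_contra hc
      exact Nat.find_min hex hk hc
    have key : ∀ ζ ζ' : ℕ → χ.ord.ToType,
        ρ ⟨(u (sh ξ₀)).symm.comp (u (sh ζ)), hg ζ⟩ = ρ ⟨(u (sh ξ₀)).symm.comp (u (sh ζ')), hg ζ'⟩ →
        (∀ k < n, sh ζ k = sh ζ' k) → ¬ sh ζ' n < sh ζ n := by
      intro ζ ζ' heq hk hc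
      apply core (sh ζ) (sh ζ') n hk hc
      refine ⟨_, ⟨_, _, heq, rfl⟩, ?_⟩
      have h1 : ((u (sh ξ₀)).symm.comp (u (sh ζ))).symm
          (((u (sh ξ₀)).symm.comp (u (sh ζ'))) (xx n (sh ζ' n))) =
          (u (sh ζ)).symm (u (sh ζ') (xx n (sh ζ' n))) := by
        apply ((u (sh ξ₀)).symm.comp (u (sh ζ))).injective
        rw [Language.Equiv.apply_symm_apply]
        show (u (sh ξ₀)).symm (u (sh ζ') (xx n (sh ζ' n))) =
          (u (sh ξ₀)).symm (u (sh ζ) ((u (sh ζ)).symm (u (sh ζ') (xx n (sh ζ' n)))))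
        rw [Language.Equiv.apply_symm_apply]
      exact congrArg (fun d : K.clOver f₁ a₁ (sSup C) => (d : N₁)) h1
    rcases lt_trichotomy (sh ξ n) (sh ξ' n) with h | h | h
    · exact key ξ' ξ hξ.symm (fun k hk => (hlt k hk).symm) h
    · exact hn h
    · exact key ξ ξ' hξ hlt h
  have h1 : #(ℕ → χ.ord.ToType) ≤ #Y := Cardinal.mk_le_of_injective hinj
  have h2 : #(ℕ → χ.ord.ToType) = χ ^ (ℵ₀ : Cardinal.{w}) := by
    simp
  exact absurd (h2 ▸ h1) (not_le.mpr hY)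

end context

end Pool.Agent.H81.FC
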